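import Mathlib

namespace Pool.Agent.Results.MP_55034c_pr.Counter

open Finset

/-- probability of the trajectory `x 0, ..., x t` for the chain `P` started from `π`. -/
def pathProb {n t : ℕ} (π : Fin n → ℚ) (P : Matrix (Fin n) (Fin n) ℚ) (x : Fin (t + 1) → Fin n) : ℚ :=
  π (x 0) * ∏ i : Fin t, P (x i.castSucc) (x i.succ)

/-- probability that the range of one chain up to time `t` has at least `y` points. -/
def single {n : ℕ} (π : Fin n → ℚ) (P : Matrix (Fin n) (Fin n) ℚ) (t y : ℕ) : ℚ :=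
  ∑ x : Fin (t + 1) → Fin n, if y ≤ (univ.image x).card then pathProb π P x else 0

/-- probability that the union of the ranges of two independent chains, up to times `s` and `t`,
has at least `y` points. -/
def pair {n : ℕ} (π : Fin n → ℚ) (P : Matrix (Fin n) (Fin n) ℚ) (s t y : ℕ) : ℚ :=
  ∑ x : Fin (s + 1) → Fin n, ∑ z : Fin (t + 1) → Fin n,
    if y ≤ (univ.image x ∪ univ.image z).card then pathProb π P x * pathProb π P z else 0

def π0 : Fin 5 → ℚ := ![25 / 27, 1 / 54, 1 / 54, 1 / 54, 1 / 54]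

def P0 : Matrix (Fin 5) (Fin 5) ℚ :=
  !![49 / 50, 1 / 100, 0, 0, 1 / 100;
     1 / 2, 0, 1 / 2, 0, 0;
     0, 1 / 2, 0, 1 / 2, 0;
     0, 0, 1 / 2, 0, 1 / 2;
     1 / 2, 0, 0, 1 / 2, 0]

lemma sum_cons (n : ℕ) (f : (Fin (n + 1) → Fin 5) → ℚ) :
    ∑ x, f x = ∑ a : Fin 5, ∑ y : Fin n → Fin 5, f (Fin.cons a y) := by
  rw [← Fintype.sum_prod_type', ← (Fin.consEquiv fun _ => Fin 5).sum_comp]
  rfl

lemma s3 (f : (Fin (2 + 1) → Fin 5) → ℚ) : ∑ x, f x = ∑ a, ∑ b, ∑ c, f ![a, b, c] := by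
  simp only [sum_cons, Fintype.sum_unique]
  rfl

lemma s5 (f : (Fin (2 + 2 + 1) → Fin 5) → ℚ) :
    ∑ x, f x = ∑ a, ∑ b, ∑ c, ∑ d, ∑ e, f ![a, b, c, d, e] := by
  simp only [sum_cons, Fintype.sum_unique]
  rfl

lemma e1 : single π0 P0 (2 + 2) 5 = 103 / 21600 := by
  unfold single
  rw [s5]
  decide +kernel

lemma e2 : pair π0 P0 2 2 5 = 5 / 2916 := by
  unfold pair
  simp only [s3]
  decide +kernel

theorem result : ∃ (n : ℕ) (π : Fin n → ℚ) (P : Matrix (Fin n) (Fin n) ℚ),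
    (∀ x, 0 < π x) ∧ ∑ x, π x = 1 ∧ (∀ x y, 0 ≤ P x y) ∧ (∀ x, ∑ y, P x y = 1) ∧
    (∀ x y, π x * P x y = π y * P y x) ∧ (∃ m, 0 < m ∧ ∀ x y, 0 < (P ^ m) x y) ∧
    ∃ s t y : ℕ, 0 < s ∧ 0 < t ∧ 0 < y ∧ pair π P s t y < single π P (s + t) y := by
  refine ⟨5, π0, P0, by decide +kernel, by decide +kernel, by decide +kernel, by decide +kernel,
    by decide +kernel, ⟨4, by norm_num, by decide +kernel⟩, 2, 2, 5, by norm_num, by norm_num,
    by norm_num, by rw [e1, e2]; norm_num⟩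

end Pool.Agent.Results.MP_55034c_pr.Counter
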